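import Mathlib
import Pool.Agent.Helper15.UH.Goals

/-!
# Packet EQN for `MP_ba83fc_ag`
-/

namespace UnrCoh

open MvPolynomial in
theorem eqn_inj {p q : MvPolynomial (Fin 6) ℂ}
    (h : algebraMap (MvPolynomial (Fin 6) ℂ) E6 p = algebraMap (MvPolynomial (Fin 6) ℂ) E6 q)
    (x : Fin 6 → ℂ) : eval x p = eval x q := by
  rw [IsFractionRing.injective (MvPolynomial (Fin 6) ℂ) E6 h]

theorem eqn_const (c : ℂ) : algebraMap ℂ E6 c =
    algebraMap (MvPolynomial (Fin 6) ℂ) E6 (MvPolynomial.C c) := by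
  rw [IsScalarTower.algebraMap_apply ℂ (MvPolynomial (Fin 6) ℂ) E6, MvPolynomial.algebraMap_eq]

theorem eqn_vX_ne_zero (i : Fin 6) : vX i ≠ 0 := by
  intro h
  have h' : algebraMap (MvPolynomial (Fin 6) ℂ) E6 (MvPolynomial.X i) =
      algebraMap (MvPolynomial (Fin 6) ℂ) E6 0 := by
    rw [map_zero]
    exact h
  have := eqn_inj h' (fun _ => 1)
  simp at this

theorem eqn_xi_ne : vX 1 ^ 2 - 1 ≠ 0 := by
  intro h
  have h' : algebraMap (MvPolynomial (Fin 6) ℂ) E6 (MvPolynomial.X 1 ^ 2 - 1) =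
      algebraMap (MvPolynomial (Fin 6) ℂ) E6 0 := by
    rw [map_zero, map_sub, map_pow, map_one]
    exact h
  have := eqn_inj h' (fun _ => 0)
  simp at this

theorem eqn_aa : aa ex = (8 * vX 1 / (vX 1 ^ 2 - 1)) ^ 2 := by
  have h := eqn_xi_ne
  unfold aa ex
  field_simp
  ring

theorem eqn : S_EQN := by
  intro ρ hρ
  have h8 : (8 : E6) ≠ 0 := by norm_num
  have h2 : (2 : E6) ≠ 0 := by norm_num
  have hxi := eqn_xi_ne
  have hX1 := eqn_vX_ne_zero 1
  have hX3 := eqn_vX_ne_zero 3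
  have hX4 := eqn_vX_ne_zero 4
  have hX5 := eqn_vX_ne_zero 5
  refine ⟨?_, ?_, ?_, ?_, ?_, ?_, ?_⟩
  · unfold eP er eu
    generalize ff ex ey (ek ρ) = F
    field_simp
    ring
  · rw [eqn_aa]
    unfold eQ es
    generalize eu * hh eu ρ = G
    field_simp
    ring
  · intro c h
    have h' : algebraMap (MvPolynomial (Fin 6) ℂ) E6 (MvPolynomial.X 0) =
      algebraMap (MvPolynomial (Fin 6) ℂ) E6 (MvPolynomial.C c) := by
      rw [← eqn_const]
      exact h
    have := eqn_inj h' (fun _ => c + 1)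
    simp at this
  · intro c h
    have h' : algebraMap (MvPolynomial (Fin 6) ℂ) E6 (9 - MvPolynomial.X 1 ^ 2) =
      algebraMap (MvPolynomial (Fin 6) ℂ) E6 (MvPolynomial.C c * (MvPolynomial.X 1 ^ 2 - 1)) := by
      rw [map_sub, map_mul, map_sub, map_pow, map_one, ← eqn_const, map_ofNat]
      have h3 : (9 - vX 1 ^ 2) / (vX 1 ^ 2 - 1) = algebraMap ℂ E6 c := h
      rw [div_eq_iff hxi] at h3
      exact h3
    have := eqn_inj h' (fun _ => 1)
    simp at this
    norm_num at this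
  · intro c h
    have h' : algebraMap (MvPolynomial (Fin 6) ℂ) E6 (MvPolynomial.X 2) =
      algebraMap (MvPolynomial (Fin 6) ℂ) E6 (MvPolynomial.C c) := by
      rw [← eqn_const]
      exact h
    have := eqn_inj h' (fun _ => c + 1)
    simp at this
  · intro c h
    have h' : algebraMap (MvPolynomial (Fin 6) ℂ) E6 (MvPolynomial.X 3 ^ 2) =
      algebraMap (MvPolynomial (Fin 6) ℂ) E6 (MvPolynomial.C c) := by
      rw [← eqn_const, map_pow]
      exact h
    have h0 := eqn_inj h' (fun _ => 0)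
    have h1 := eqn_inj h' (fun _ => 1)
    simp at h0 h1
    rw [← h0] at h1
    exact one_ne_zero h1
  · intro h
    have h' : algebraMap (MvPolynomial (Fin 6) ℂ) E6 (MvPolynomial.X 2) =
      algebraMap (MvPolynomial (Fin 6) ℂ) E6
        ((MvPolynomial.X 0 ^ 2 + MvPolynomial.C ρ) ^ 2) := by
      rw [map_pow, map_add, map_pow, ← eqn_const]
      exact h
    have h0 := eqn_inj h' (fun _ => 0)
    simp at h0
    exact hρ ((pow_eq_zero_iff (two_ne_zero)).1 h0.symm)

end UnrCoh
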