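import Mathlib
import Pool.Agent.Helper15.UH.Goals

/-!
# Packet NV for `MP_ba83fc_ag`
-/

namespace UnrCoh

theorem nv_val_one_iff {K : Type*} [Field K] (A : ValuationSubring K) {x : K} (hx : x ≠ 0) :
    A.valuation x = 1 ↔ x ∈ A ∧ x⁻¹ ∈ A := by
  have hv : A.valuation x ≠ 0 := (A.valuation.ne_zero_iff).2 hx
  rw [← A.valuation_le_one_iff, ← A.valuation_le_one_iff, map_inv₀]
  constructor
  · intro h
    rw [h]
    simp
  · rintro ⟨h1, h2⟩
    refine le_antisymm h1 ?_
    rwa [inv_le_one₀ (zero_lt_iff.2 hv)] at h2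

theorem nv_extend {L K : Type*} [Field L] [Field K] [Algebra L K] (V : ValuationSubring L) :
    ∃ (W : ValuationSubring K), W.comap (algebraMap L K) = V := by
  obtain ⟨W, hW, hl⟩ := IsLocalRing.exists_factor_valuationRing
    ((algebraMap L K).comp V.subtype)
  refine ⟨W, ?_⟩
  ext x
  rw [ValuationSubring.mem_comap]
  constructor
  · intro hx
    by_contra hV
    have hx0 : x ≠ 0 := by
      rintro rfl
      exact hV V.zero_mem
    have hinv : x⁻¹ ∈ V := (V.mem_or_inv_mem x).resolve_left hV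
    have hinv0 : (algebraMap L K) x⁻¹ ≠ 0 := by simpa using hx0
    have hu : IsUnit ((((algebraMap L K).comp V.subtype).codRestrict W.toSubring hW)
        ⟨x⁻¹, hinv⟩) := by
      rw [isUnit_iff_exists_inv]
      refine ⟨⟨algebraMap L K x, hx⟩, ?_⟩
      apply Subtype.ext
      change (algebraMap L K) x⁻¹ * (algebraMap L K) x = 1
      rw [← map_mul, inv_mul_cancel₀ hx0, map_one]
    have hu' := hl.map_nonunit _ hu
    rw [isUnit_iff_exists_inv] at hu'
    obtain ⟨⟨y, hy⟩, hxy⟩ := hu'
    have : x⁻¹ * y = 1 := congrArg Subtype.val hxy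
    have hyx : y = x := ((inv_mul_eq_one₀ hx0).1 this).symm
    exact hV (hyx ▸ hy)
  · intro hx
    exact hW ⟨x, hx⟩

theorem nv : S_CYC → S_SYL → S_NV := by
  intro hcyc hsyl L _ _ V hV2 hVinf b hind
  refine hcyc L b ?_
  intro K hKfd hKn hKb
  have : IsGalois L K := IsGalois.mk
  obtain ⟨W, hW⟩ := nv_extend (K := K) V
  have hval : ∀ x : L, x ≠ 0 → (W.valuation (algebraMap L K x) = 1 ↔ V.valuation x = 1) := by
    intro x hx
    have hx' : algebraMap L K x ≠ 0 := by simpa using hx
    rw [nv_val_one_iff W hx', nv_val_one_iff V hx, ← map_inv₀, ← hW, ValuationSubring.mem_comap,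
      ValuationSubring.mem_comap]
  have hW2 : W.valuation 2 = 1 := by
    have h := (hval 2 two_ne_zero).2 hV2
    rwa [map_ofNat] at h
  have hinf : Infinite (IsLocalRing.ResidueField W) := by
    have hmem : ∀ x : V, (algebraMap L K) x ∈ W := by
      rintro ⟨x, hx⟩
      have hx' := hx
      rw [← hW] at hx'
      exact hx'
    let f : V →+* W := ((algebraMap L K).comp V.subtype).codRestrict W.toSubring hmem
    have hloc : IsLocalHom f := by
      constructor
      rintro ⟨a, ha⟩ hu
      rw [isUnit_iff_exists_inv] at hu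
      obtain ⟨⟨y, hy⟩, hay⟩ := hu
      have h1 : (algebraMap L K) a * y = 1 := congrArg Subtype.val hay
      have ha0 : a ≠ 0 := by
        rintro rfl
        simp at h1
      have hy' : y = algebraMap L K a⁻¹ := by
        rw [map_inv₀]
        exact (eq_inv_of_mul_eq_one_right h1)
      have hmem' : a⁻¹ ∈ V := by
        rw [← hW, ValuationSubring.mem_comap, ← hy']
        exact hy
      rw [isUnit_iff_exists_inv]
      exact ⟨⟨a⁻¹, hmem'⟩, Subtype.ext (mul_inv_cancel₀ ha0)⟩
    exact Infinite.of_injective (IsLocalRing.ResidueField.map f) (RingHom.injective _)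
  let β : Fin 4 → K := fun i => ⟨rt (b i), hKb i⟩
  have hβ : ∀ i, β i ^ 2 = algebraMap L K (b i) := by
    intro i
    apply Subtype.ext
    exact rt_sq (b i)
  have hb0 : ∀ i, (b i : L) ≠ 0 := fun i => (b i).ne_zero
  obtain ⟨σ, hσc, hσb⟩ := hsyl L K inferInstance inferInstance W hW2 hinf β (fun i => (b i : L))
    hb0 hβ (by
      intro e he x hx hone
      refine hind e he x hx ?_
      have hne : (∏ i, (b i : L) ^ (e i : ℕ)) * x ^ 2 ≠ 0 := by
        refine mul_ne_zero (Finset.prod_ne_zero_iff.2 fun i _ => pow_ne_zero _ (hb0 i)) ?_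
        exact pow_ne_zero _ hx
      rw [← hval _ hne]
      have hsq : algebraMap L K ((∏ i, (b i : L) ^ (e i : ℕ)) * x ^ 2) =
          ((∏ i, β i ^ (e i : ℕ)) * algebraMap L K x) ^ 2 := by
        rw [map_mul, map_prod, mul_pow, ← Finset.prod_pow, map_pow]
        congr 1
        refine Finset.prod_congr rfl fun i _ => ?_
        rw [map_pow, ← hβ i, ← pow_mul, ← pow_mul, mul_comm]
      rw [hsq, map_pow, hone, one_pow])
  -- lift the automorphisms
  have : Normal L (AlgebraicClosure L) := inferInstance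
  choose τ hτ using fun i => AlgEquiv.restrictNormalHom_surjective (F := L) (K₁ := K)
    (E := AlgebraicClosure L) (σ i)
  have hτz : ∀ i, ∀ z : K, τ i (z : AlgebraicClosure L) = ((σ i z : K) : AlgebraicClosure L) := by
    intro i z
    have h := AlgEquiv.restrictNormal_commutes (τ i) K z
    rw [← hτ i]
    exact h.symm
  refine ⟨τ, ?_, ?_⟩
  · intro i j z hz
    have h1 : τ j z = ((σ j ⟨z, hz⟩ : K) : AlgebraicClosure L) := hτz j ⟨z, hz⟩
    have h2 : τ i z = ((σ i ⟨z, hz⟩ : K) : AlgebraicClosure L) := hτz i ⟨z, hz⟩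
    rw [h1, h2, hτz, hτz]
    have := congrArg (fun s : K ≃ₐ[L] K => s ⟨z, hz⟩) (hσc i j)
    exact congrArg Subtype.val this
  · intro i j
    have h1 : τ j (rt (b i)) = ((σ j (β i) : K) : AlgebraicClosure L) := hτz j (β i)
    rw [h1, hσb i j]
    split_ifs
    · rfl
    · rfl

end UnrCoh
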