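import Mathlib

/-!
# Unirational affine varieties over `ℂ` are rationally connected

* `RationallyConnected A` : two general closed points of `Spec A` lie on a rational curve.
* `rationallyConnected_of_injective` : if `A` is a finitely generated domain over `ℂ` which embeds
  in a rational function field `ℂ(X₁, …, Xₙ)`, then `RationallyConnected A`.
-/

namespace UnrCoh

/-- The rational curve `φ : 𝔸¹ ⇢ Spec A`, given by a homomorphism of `ℂ`-algebras `A → ℂ(τ)`, is
defined at the point `τ = a` and takes the value `P` (a closed point of `Spec A`) there. -/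
def PassesThrough {A : Type*} [CommRing A] [Algebra ℂ A] (φ : A →ₐ[ℂ] RatFunc ℂ) (a : ℂ)
    (P : A →ₐ[ℂ] ℂ) : Prop :=
  ∀ g : A, (φ g).denom.eval a ≠ 0 ∧ (φ g).num.eval a / (φ g).denom.eval a = P g

/-- Two general closed points of the affine variety `Spec A` lie on a rational curve: there is a
nonempty open subset `h ≠ 0` of `Spec A` such that for any two closed points `P`, `Q` in it
there is a rational curve `φ : 𝔸¹ ⇢ Spec A` passing through `P` and `Q`. -/
def RationallyConnected (A : Type*) [CommRing A] [Algebra ℂ A] : Prop :=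
  ∃ h : A, h ≠ 0 ∧ ∀ P Q : A →ₐ[ℂ] ℂ, P h ≠ 0 → Q h ≠ 0 →
    ∃ (φ : A →ₐ[ℂ] RatFunc ℂ) (a b : ℂ), PassesThrough φ a P ∧ PassesThrough φ b Q

/-- General closed points lift along dominant morphisms. -/
theorem exists_generic_lift {A B : Type*} [CommRing A] [CommRing B] [IsDomain B]
    [Algebra ℂ A] [Algebra ℂ B] [Algebra.FiniteType ℂ A] [Algebra.FiniteType ℂ B]
    (f : A →ₐ[ℂ] B) (hf : Function.Injective f) :
    ∃ h : A, h ≠ 0 ∧ ∀ P : A →ₐ[ℂ] ℂ, P h ≠ 0 → ∃ P' : B →ₐ[ℂ] ℂ, P'.comp f = P := by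
  have hAN : IsNoetherianRing A := Algebra.FiniteType.isNoetherianRing ℂ A
  have hft : f.toRingHom.FiniteType := by
    have h : ((f.toRingHom).comp (algebraMap ℂ A)).FiniteType := by
      have h1 : (f.toRingHom).comp (algebraMap ℂ A) = algebraMap ℂ B := by
        ext x
        simp
      rw [h1]
      exact RingHom.finiteType_algebraMap.2 inferInstance
    exact RingHom.FiniteType.of_comp_finiteType h
  have hfp : f.toRingHom.FinitePresentation := RingHom.FinitePresentation.of_finiteType.1 hft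
  obtain ⟨S, hS⟩ := PrimeSpectrum.exists_constructibleSetData_iff.2
    (PrimeSpectrum.isConstructible_range_comap hfp)
  have hbot : (PrimeSpectrum.comap f.toRingHom ⟨⊥, Ideal.isPrime_bot⟩) ∈ S.toSet := by
    rw [hS]
    exact ⟨_, rfl⟩
  simp only [PrimeSpectrum.ConstructibleSetData.toSet, Set.mem_iUnion] at hbot
  obtain ⟨C, hCS, hC⟩ := hbot
  have hcomap : ∀ x : A, x ∈ (PrimeSpectrum.comap f.toRingHom
      ⟨⊥, Ideal.isPrime_bot⟩).asIdeal ↔ x = 0 := by
    intro x
    rw [PrimeSpectrum.comap_asIdeal, Ideal.mem_comap]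
    change f x = 0 ↔ x = 0
    exact map_eq_zero_iff f hf
  have hg : ∀ i, C.g i = 0 := by
    intro i
    have h1 := hC.1 (Set.mem_range_self i)
    exact (hcomap _).1 h1
  have hf0 : C.f ≠ 0 := by
    intro h0
    apply hC.2
    rw [PrimeSpectrum.mem_zeroLocus, Set.singleton_subset_iff]
    exact (hcomap _).2 h0
  refine ⟨C.f, hf0, ?_⟩
  intro P hP
  have hker : (RingHom.ker P).IsPrime := RingHom.ker_isPrime _
  have hmem : (⟨RingHom.ker P, hker⟩ : PrimeSpectrum A) ∈ S.toSet := by
    simp only [PrimeSpectrum.ConstructibleSetData.toSet, Set.mem_iUnion]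
    refine ⟨C, hCS, ?_, ?_⟩
    · rw [PrimeSpectrum.mem_zeroLocus]
      rintro _ ⟨i, rfl⟩
      rw [hg i]
      exact Ideal.zero_mem _
    · rw [PrimeSpectrum.mem_zeroLocus, Set.singleton_subset_iff]
      intro h
      exact hP h
  rw [hS] at hmem
  obtain ⟨q, hq⟩ := hmem
  have hqk : ∀ x : A, f x ∈ q.asIdeal ↔ P x = 0 := by
    intro x
    have h1 : x ∈ (PrimeSpectrum.comap f.toRingHom q).asIdeal ↔ x ∈ RingHom.ker P := by
      rw [hq]
    rw [PrimeSpectrum.comap_asIdeal, Ideal.mem_comap] at h1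
    exact h1
  obtain ⟨m, hm, hqm⟩ := Ideal.exists_le_maximal q.asIdeal q.2.ne_top
  let := Ideal.Quotient.field m
  have hfin : Module.Finite ℂ (B ⧸ m) := finite_of_finite_type_of_isJacobsonRing ℂ (B ⧸ m)
  have hbij : Function.Bijective (algebraMap ℂ (B ⧸ m)) :=
    IsAlgClosed.algebraMap_bijective_of_isIntegral
  let e : ℂ ≃ₐ[ℂ] (B ⧸ m) := AlgEquiv.ofBijective (Algebra.ofId ℂ (B ⧸ m)) hbij
  refine ⟨(e.symm.toAlgHom).comp (Ideal.Quotient.mkₐ ℂ m), ?_⟩
  ext x
  have h1 : f (x - algebraMap ℂ A (P x)) ∈ q.asIdeal := by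
    rw [hqk]
    simp
  have h2 : (Ideal.Quotient.mkₐ ℂ m) (f (x - algebraMap ℂ A (P x))) = 0 :=
    Ideal.Quotient.eq_zero_iff_mem.2 (hqm h1)
  have h3 : (Ideal.Quotient.mkₐ ℂ m) (f x) = algebraMap ℂ _ (P x) := by
    rw [map_sub, map_sub, sub_eq_zero] at h2
    rw [h2]
    simp
  change e.symm ((Ideal.Quotient.mkₐ ℂ m) (f x)) = P x
  rw [h3]
  simp

section Line

variable {n : ℕ}

/-- The restriction of polynomials to the line through `p` (at `τ = 0`) and `q` (at `τ = 1`). -/
noncomputable def line (p q : Fin n → ℂ) : MvPolynomial (Fin n) ℂ →ₐ[ℂ] Polynomial ℂ :=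
  MvPolynomial.aeval (fun i => Polynomial.C (p i) + Polynomial.X * Polynomial.C (q i - p i))

theorem line_eval_zero (p q : Fin n → ℂ) (r : MvPolynomial (Fin n) ℂ) :
    (line p q r).eval 0 = MvPolynomial.aeval p r := by
  have h : ((Polynomial.aeval (0 : ℂ)).comp (line p q)) = MvPolynomial.aeval p := by
    apply MvPolynomial.algHom_ext
    intro i
    simp [line]
  have := congrArg (fun f : MvPolynomial (Fin n) ℂ →ₐ[ℂ] ℂ => f r) h
  simpa [Polynomial.aeval_def] using this

theorem line_eval_one (p q : Fin n → ℂ) (r : MvPolynomial (Fin n) ℂ) :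
    (line p q r).eval 1 = MvPolynomial.aeval q r := by
  have h : ((Polynomial.aeval (1 : ℂ)).comp (line p q)) = MvPolynomial.aeval q := by
    apply MvPolynomial.algHom_ext
    intro i
    simp [line]
  have := congrArg (fun f : MvPolynomial (Fin n) ℂ →ₐ[ℂ] ℂ => f r) h
  simpa [Polynomial.aeval_def] using this

end Line

theorem eval_ratFunc {N D : Polynomial ℂ} {a : ℂ} (hD : D.eval a ≠ 0) (x : RatFunc ℂ)
    (hx : x * algebraMap (Polynomial ℂ) (RatFunc ℂ) D = algebraMap (Polynomial ℂ) (RatFunc ℂ) N) :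
    x.denom.eval a ≠ 0 ∧ x.num.eval a / x.denom.eval a = N.eval a / D.eval a := by
  have hD0 : D ≠ 0 := by
    rintro rfl
    simp at hD
  have hD1 : algebraMap (Polynomial ℂ) (RatFunc ℂ) D ≠ 0 := by
    simpa using hD0
  have hdvd : x.denom ∣ D := by
    rw [RatFunc.denom_dvd hD0]
    exact ⟨N, by rw [eq_div_iff hD1]; exact hx⟩
  have hden : x.denom.eval a ≠ 0 := by
    intro h0
    obtain ⟨c, hc⟩ := hdvd
    apply hD
    rw [hc, Polynomial.eval_mul, h0, zero_mul]
  refine ⟨hden, ?_⟩
  have hden1 : algebraMap (Polynomial ℂ) (RatFunc ℂ) x.denom ≠ 0 := by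
    simpa using x.denom_ne_zero
  have h1 : algebraMap (Polynomial ℂ) (RatFunc ℂ) (x.num * D) =
      algebraMap (Polynomial ℂ) (RatFunc ℂ) (N * x.denom) := by
    rw [map_mul, map_mul, ← hx]
    nth_rewrite 2 [← RatFunc.num_div_denom x]
    field_simp
  have h2 : x.num * D = N * x.denom := RatFunc.algebraMap_injective ℂ h1
  rw [div_eq_div_iff hden hD, ← Polynomial.eval_mul, ← Polynomial.eval_mul, h2]

theorem rationallyConnected_of_injective {A : Type*} [CommRing A] [Algebra ℂ A]
    [Algebra.FiniteType ℂ A] {n : ℕ}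
    (φ : A →ₐ[ℂ] FractionRing (MvPolynomial (Fin n) ℂ)) (hφ : Function.Injective φ) :
    RationallyConnected A := by
  classical
  -- common denominator
  obtain ⟨s, hs⟩ := (Algebra.FiniteType.out : (⊤ : Subalgebra ℂ A).FG)
  obtain ⟨g, hg⟩ := IsLocalization.exist_integer_multiples_of_finset
    (nonZeroDivisors (MvPolynomial (Fin n) ℂ)) (s.image φ)
  have hg0 : (g : MvPolynomial (Fin n) ℂ) ≠ 0 := nonZeroDivisors.coe_ne_zero g
  set E := FractionRing (MvPolynomial (Fin n) ℂ) with hE
  have hgE : algebraMap (MvPolynomial (Fin n) ℂ) E g ≠ 0 := by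
    intro h
    exact hg0 ((map_eq_zero_iff _ (IsFractionRing.injective (MvPolynomial (Fin n) ℂ) E)).1 h)
  let B := Localization.Away (g : MvPolynomial (Fin n) ℂ)
  have hBD : IsDomain B := IsLocalization.isDomain_localization
    (powers_le_nonZeroDivisors_of_noZeroDivisors hg0)
  have hunit : ∀ y : Submonoid.powers (g : MvPolynomial (Fin n) ℂ),
      IsUnit (IsScalarTower.toAlgHom ℂ (MvPolynomial (Fin n) ℂ) E y) := by
    rintro ⟨_, k, rfl⟩
    rw [map_pow]
    exact (IsUnit.mk0 _ hgE).pow k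
  let ι : B →ₐ[ℂ] E := IsLocalization.liftAlgHom (M := Submonoid.powers
    (g : MvPolynomial (Fin n) ℂ)) (f := IsScalarTower.toAlgHom ℂ (MvPolynomial (Fin n) ℂ) E) hunit
  have hι : ∀ r : MvPolynomial (Fin n) ℂ, ι (algebraMap _ B r) = algebraMap _ E r := by
    intro r
    exact IsLocalization.lift_eq _ r
  have hιinj : Function.Injective ι := by
    rw [injective_iff_map_eq_zero]
    intro b hb
    obtain ⟨⟨r, y⟩, hry⟩ := IsLocalization.surj (Submonoid.powers
      (g : MvPolynomial (Fin n) ℂ)) b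
    have h1 : ι (algebraMap _ B r) = 0 := by
      rw [← hry, map_mul, hb, zero_mul]
    rw [hι, map_eq_zero_iff _ (IsFractionRing.injective (MvPolynomial (Fin n) ℂ) E)] at h1
    simp only [h1, map_zero] at hry
    have hy : IsUnit (algebraMap (MvPolynomial (Fin n) ℂ) B y) :=
      IsLocalization.map_units B y
    exact (hy.mul_left_eq_zero).1 hry
  have hBft : Algebra.FiniteType ℂ B := by
    have h0 : Algebra.FinitePresentation (MvPolynomial (Fin n) ℂ) B :=
      IsLocalization.Away.finitePresentation (g : MvPolynomial (Fin n) ℂ)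
    have h1 : Algebra.FiniteType (MvPolynomial (Fin n) ℂ) B := inferInstance
    exact Algebra.FiniteType.trans (S := MvPolynomial (Fin n) ℂ) inferInstance h1
  have hrange : ∀ a : A, φ a ∈ ι.range := by
    have hle : (⊤ : Subalgebra ℂ A) ≤ ι.range.comap φ := by
      rw [← hs]
      refine Algebra.adjoin_le ?_
      intro a ha
      obtain ⟨r, hr⟩ := hg (φ a) (Finset.mem_image_of_mem _ ha)
      change φ a ∈ ι.range
      have hu : IsUnit (algebraMap (MvPolynomial (Fin n) ℂ) B g) :=
        IsLocalization.map_units B (⟨g, Submonoid.mem_powers _⟩ :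
          Submonoid.powers (g : MvPolynomial (Fin n) ℂ))
      refine ⟨algebraMap _ B r * ((hu.unit⁻¹ : Bˣ) : B), ?_⟩
      have h1 : ι ((hu.unit⁻¹ : Bˣ) : B) * algebraMap (MvPolynomial (Fin n) ℂ) E g = 1 := by
        rw [← hι, ← map_mul]
        have : ((hu.unit⁻¹ : Bˣ) : B) * algebraMap (MvPolynomial (Fin n) ℂ) B g = 1 :=
          hu.val_inv_mul
        rw [this, map_one]
      have h2 : algebraMap (MvPolynomial (Fin n) ℂ) E r =
          algebraMap (MvPolynomial (Fin n) ℂ) E g * φ a := by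
        rw [hr, Algebra.smul_def]
      change ι _ = φ a
      rw [map_mul, hι, h2]
      linear_combination (φ a) * h1
    intro a
    exact hle (Algebra.mem_top (x := a))
  let φ' : A →ₐ[ℂ] B := (AlgEquiv.ofInjective ι hιinj).symm.toAlgHom.comp
    (φ.codRestrict ι.range hrange)
  have hφ' : ∀ a, ι (φ' a) = φ a := by
    intro a
    have h1 : (AlgEquiv.ofInjective ι hιinj) (φ' a) = φ.codRestrict ι.range hrange a :=
      (AlgEquiv.ofInjective ι hιinj).apply_symm_apply _
    exact congrArg Subtype.val h1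
  have hφ'inj : Function.Injective φ' := by
    intro a b hab
    apply hφ
    rw [← hφ', ← hφ', hab]
  obtain ⟨h, hh0, hlift⟩ := exists_generic_lift φ' hφ'inj
  refine ⟨h, hh0, ?_⟩
  intro P Q hP hQ
  obtain ⟨P', hP'⟩ := hlift P hP
  obtain ⟨Q', hQ'⟩ := hlift Q hQ
  let R := MvPolynomial (Fin n) ℂ
  let p : Fin n → ℂ := fun i => P' (algebraMap R B (MvPolynomial.X i))
  let q : Fin n → ℂ := fun i => Q' (algebraMap R B (MvPolynomial.X i))
  have hp : ∀ r : R, (line p q r).eval 0 = P' (algebraMap R B r) := by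
    intro r
    rw [line_eval_zero]
    have h1 : MvPolynomial.aeval p = P'.comp (IsScalarTower.toAlgHom ℂ R B) := by
      apply MvPolynomial.algHom_ext
      intro i
      rw [MvPolynomial.aeval_X]
      rfl
    rw [h1]
    rfl
  have hq : ∀ r : R, (line p q r).eval 1 = Q' (algebraMap R B r) := by
    intro r
    rw [line_eval_one]
    have h1 : MvPolynomial.aeval q = Q'.comp (IsScalarTower.toAlgHom ℂ R B) := by
      apply MvPolynomial.algHom_ext
      intro i
      rw [MvPolynomial.aeval_X]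
      rfl
    rw [h1]
    rfl
  have hgu : IsUnit (algebraMap R B g) :=
    IsLocalization.map_units B (⟨g, Submonoid.mem_powers _⟩ :
      Submonoid.powers (g : MvPolynomial (Fin n) ℂ))
  have hline0 : (line p q g).eval 0 ≠ 0 := by
    rw [hp]
    exact (hgu.map P').ne_zero
  have hline1 : (line p q g).eval 1 ≠ 0 := by
    rw [hq]
    exact (hgu.map Q').ne_zero
  have hlineg : algebraMap (Polynomial ℂ) (RatFunc ℂ) (line p q g) ≠ 0 := by
    intro h0
    have h1 : line p q g = 0 := by
      simpa using h0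
    rw [h1] at hline0
    simp at hline0
  let lam : R →ₐ[ℂ] RatFunc ℂ := (IsScalarTower.toAlgHom ℂ (Polynomial ℂ) (RatFunc ℂ)).comp
    (line p q)
  have hlamu : ∀ y : Submonoid.powers (g : MvPolynomial (Fin n) ℂ), IsUnit (lam y) := by
    rintro ⟨_, k, rfl⟩
    rw [map_pow]
    exact (IsUnit.mk0 _ hlineg).pow k
  let ψ : B →ₐ[ℂ] RatFunc ℂ := IsLocalization.liftAlgHom (M := Submonoid.powers
    (g : MvPolynomial (Fin n) ℂ)) (f := lam) hlamu
  have hψ : ∀ r : R, ψ (algebraMap _ B r) = lam r := by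
    intro r
    exact IsLocalization.lift_eq _ r
  have key : ∀ (a : ℂ) (P₀ : B →ₐ[ℂ] ℂ), (∀ r : R, (line p q r).eval a = P₀ (algebraMap R B r)) →
      ∀ b : B, (ψ b).denom.eval a ≠ 0 ∧ (ψ b).num.eval a / (ψ b).denom.eval a = P₀ b := by
    intro a P₀ ha b
    obtain ⟨⟨r, y⟩, hry⟩ := IsLocalization.surj (Submonoid.powers
      (g : MvPolynomial (Fin n) ℂ)) b
    have hy : IsUnit (algebraMap (MvPolynomial (Fin n) ℂ) B y) :=
      IsLocalization.map_units B y
    have hyev : (line p q y).eval a ≠ 0 := by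
      rw [ha]
      exact (hy.map P₀).ne_zero
    have hx : ψ b * algebraMap (Polynomial ℂ) (RatFunc ℂ) (line p q y) =
        algebraMap (Polynomial ℂ) (RatFunc ℂ) (line p q r) := by
      have h1 := congrArg ψ hry
      rw [map_mul, hψ, hψ] at h1
      exact h1
    obtain ⟨h1, h2⟩ := eval_ratFunc hyev (ψ b) hx
    refine ⟨h1, ?_⟩
    rw [h2, div_eq_iff hyev, ha, ha, ← map_mul]
    exact congrArg P₀ hry.symm
  refine ⟨ψ.comp φ', 0, 1, ?_, ?_⟩
  · intro a
    rw [← hP']
    exact key 0 P' hp (φ' a)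
  · intro a
    rw [← hQ']
    exact key 1 Q' hq (φ' a)

end UnrCoh
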