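import Mathlib
import Pool.Agent.Helper15.UH.Defs
import Pool.Agent.Helper15.UH.Goals
import Pool.Agent.Helper15.UH.Fin
import Pool.Agent.Helper19.UH.RC
import Pool.Agent.Helper19.UH.NV

/-!
# The final statement for `MP_ba83fc_ag`: a rationally connected variety
-/

namespace UnrCoh



/-- The eight generators. -/
def gens (ρ : ℂ) : Set E6 := {et, ex, ey, eu, er ρ, es ρ, eP ρ, eQ ρ}

/-- The coordinate ring `ℂ[t, x, y, u, r, s, P, Q]` of the affine variety. -/
noncomputable def AA (ρ : ℂ) : Subalgebra ℂ E6 := Algebra.adjoin ℂ (gens ρ)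

theorem AA_finiteType (ρ : ℂ) : Algebra.FiniteType ℂ (AA ρ) := by
  refine Algebra.FiniteType.adjoin_of_finite ?_
  unfold gens
  exact Set.toFinite _

theorem AA_rationallyConnected (ρ : ℂ) : RationallyConnected (AA ρ) := by
  have := AA_finiteType ρ
  exact rationallyConnected_of_injective (n := 6) (AA ρ).val Subtype.val_injective

open scoped IntermediateField.algebraAdjoinAdjoin in
/-- The function field of the variety is `LL ρ`. -/
noncomputable def fracEquiv (ρ : ℂ) : FractionRing (AA ρ) ≃ₐ[ℂ] LL ρ :=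
  (FractionRing.algEquiv (Algebra.adjoin ℂ (gens ρ))
    (IntermediateField.adjoin ℂ (gens ρ))).restrictScalars ℂ

/-- The dimension of the variety is six. -/
theorem AA_trdeg (hind : S_IND) {ρ : ℂ} (hρ : ρ ≠ 0) :
    Algebra.trdeg ℂ (FractionRing (AA ρ)) = 6 := by
  have h0 : Algebra.trdeg ℂ (MvPolynomial (Fin 6) ℂ) = 6 := by
    rw [MvPolynomial.trdeg_of_isDomain]
    simp
  have h1 : Algebra.trdeg ℂ E6 = 6 := by
    have h := trdeg_add_eq ℂ (MvPolynomial (Fin 6) ℂ) (A := E6)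
    have h3 : Algebra.IsAlgebraic (MvPolynomial (Fin 6) ℂ) E6 :=
      IsLocalization.isAlgebraic _ (nonZeroDivisors (MvPolynomial (Fin 6) ℂ))
    have h2 : Algebra.trdeg (MvPolynomial (Fin 6) ℂ) E6 = 0 := trdeg_eq_zero
    rw [h2, add_zero, h0] at h
    exact h.symm
  rw [AlgEquiv.trdeg_eq (fracEquiv ρ)]
  apply le_antisymm
  · rw [← h1]
    exact trdeg_le_of_injective (LL ρ).val (LL ρ).val.injective
  · have hmem : ∀ i, zz ρ i ∈ LL ρ := by
      have hm : ∀ z ∈ ({et, ex, ey, eu, er ρ, es ρ, eP ρ, eQ ρ} : Set E6), z ∈ LL ρ :=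
        fun z hz => IntermediateField.subset_adjoin _ _ hz
      have hk : ek ρ ∈ LL ρ := (LL ρ).add_mem ((LL ρ).pow_mem (hm _ (by simp)) 2)
        ((LL ρ).algebraMap_mem ρ)
      intro i
      fin_cases i
      · exact (LL ρ).inv_mem hk
      · exact (LL ρ).inv_mem (hm ey (by simp))
      · exact hm ex (by simp)
      · exact hm eu (by simp)
      · exact hm (er ρ) (by simp)
      · exact hm (es ρ) (by simp)
    have hz : AlgebraicIndependent ℂ (fun i => (⟨zz ρ i, hmem i⟩ : LL ρ)) :=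
      AlgebraicIndependent.of_comp (LL ρ).val (hind ρ hρ)
    have := hz.cardinalMk_le_trdeg
    simpa using this

/-- Transport of a valuation ring along an isomorphism. -/
theorem comap_equiv_val {L L' : Type*} [Field L] [Field L'] (e : L' ≃+* L)
    (V : ValuationSubring L) {z : L'} (hz : z ≠ 0) :
    (V.comap (e : L' →+* L)).valuation z = 1 ↔ V.valuation (e z) = 1 := by
  have hz' : e z ≠ 0 := by simpa using hz
  rw [nv_val_one_iff _ hz, nv_val_one_iff _ hz', ValuationSubring.mem_comap,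
    ValuationSubring.mem_comap]
  have : (e : L' →+* L) z⁻¹ = (e z)⁻¹ := map_inv₀ e z
  rw [this]
  rfl

theorem comap_equiv_infinite {L L' : Type*} [Field L] [Field L'] (e : L' ≃+* L)
    (V : ValuationSubring L) (h : Infinite (IsLocalRing.ResidueField V)) :
    Infinite (IsLocalRing.ResidueField (V.comap (e : L' →+* L))) := by
  let f : V ≃+* V.comap (e : L' →+* L) :=
    { toFun := fun y => ⟨e.symm y, by
        rw [ValuationSubring.mem_comap]
        simp⟩
      invFun := fun x => ⟨e x, x.2⟩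
      left_inv := fun y => Subtype.ext (e.apply_symm_apply _)
      right_inv := fun x => Subtype.ext (e.symm_apply_apply _)
      map_mul' := fun x y => Subtype.ext (map_mul e.symm _ _)
      map_add' := fun x y => Subtype.ext (map_add e.symm _ _) }
  exact Infinite.of_injective (IsLocalRing.ResidueField.mapEquiv f)
    (IsLocalRing.ResidueField.mapEquiv f).injective

theorem final_of (hseq : S_SEQ) (habs : S_ABSU) (hsym : S_SYM4) (hpl : S_PLACE) (hnv : S_NV)
    (heqn : S_EQN) (hlval : S_LVAL) {ρ : ℂ} (hρ : Transcendental ℚ ρ)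
    (L' : Type) [Field L'] [Algebra ℂ L'] (e : L' ≃+* LL ρ)
    (he : ∀ c : ℂ, e (algebraMap ℂ _ c) = algebraMap ℂ _ c) :
    Infinite (unramified L' 2 4) := by
  have hρ0 : ρ ≠ 0 := by
    rintro rfl
    exact hρ isAlgebraic_zero
  obtain ⟨heP, heQ, hct, hcx, hcy, hcu, hyk⟩ := heqn ρ hρ0
  have hmem : ∀ z ∈ ({et, ex, ey, eu, er ρ, es ρ, eP ρ, eQ ρ} : Set E6), z ∈ LL ρ :=
    fun z hz => IntermediateField.subset_adjoin _ _ hz
  have mt : et ∈ LL ρ := hmem _ (by simp)
  have mx : ex ∈ LL ρ := hmem _ (by simp)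
  have my : ey ∈ LL ρ := hmem _ (by simp)
  have mu : eu ∈ LL ρ := hmem _ (by simp)
  have mr : er ρ ∈ LL ρ := hmem _ (by simp)
  have ms : es ρ ∈ LL ρ := hmem _ (by simp)
  have mP : eP ρ ∈ LL ρ := hmem _ (by simp)
  have mQ : eQ ρ ∈ LL ρ := hmem _ (by simp)
  have he' : ∀ c : ℂ, e.symm (algebraMap ℂ (LL ρ) c) = algebraMap ℂ L' c := by
    intro c
    rw [← he c, e.symm_apply_apply]
  have h9 : e.symm 9 = 9 := map_ofNat e.symm 9
  have haa : ∀ x : LL ρ, e.symm (aa x) = aa (e.symm x) := by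
    intro x
    simp only [aa, map_mul, map_add, map_one, h9]
  have hff : ∀ x y k : LL ρ, e.symm (ff x y k) = ff (e.symm x) (e.symm y) (e.symm k) := by
    intro x y k
    simp only [ff, haa, map_mul, map_sub, map_one, map_pow]
  have hhh : ∀ u : LL ρ, e.symm (hh u ρ) = hh (e.symm u) ρ := by
    intro u
    simp only [hh, map_mul, map_sub, map_one]
    rw [he']
  have hchar : CharZero L' :=
    charZero_of_injective_algebraMap (algebraMap ℂ L').injective
  have hek : e.symm (⟨et, mt⟩ ^ 2 + algebraMap ℂ (LL ρ) ρ) =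
      (e.symm ⟨et, mt⟩) ^ 2 + algebraMap ℂ _ ρ := by
    rw [map_add, map_pow, he']
  have hconst : ∀ (z : LL ρ), (∀ c : ℂ, (z : E6) ≠ algebraMap ℂ E6 c) →
      ∀ c : ℂ, e.symm z ≠ algebraMap ℂ _ c := by
    intro z hz c h
    apply hz c
    have h1 : z = e (algebraMap ℂ _ c) := by rw [← h, e.apply_symm_apply]
    rw [he] at h1
    rw [h1]
    rfl
  refine infinite_unramified hseq habs hsym hpl hnv L' ρ hρ
    (e.symm ⟨et, mt⟩) (e.symm ⟨ex, mx⟩) (e.symm ⟨ey, my⟩) (e.symm ⟨eu, mu⟩)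
    (e.symm ⟨er ρ, mr⟩) (e.symm ⟨es ρ, ms⟩) (e.symm ⟨eP ρ, mP⟩) (e.symm ⟨eQ ρ, mQ⟩)
    ?_ ?_ (hconst _ hct) (hconst _ hcx) (hconst _ hcy) (hconst _ hcu) ?_ ?_
  · have h : (⟨eP ρ, mP⟩ : LL ρ) ^ 2 = ff ⟨ex, mx⟩ ⟨ey, my⟩ (⟨et, mt⟩ ^ 2 + algebraMap ℂ (LL ρ) ρ)
      + ⟨eu, mu⟩ * ⟨er ρ, mr⟩ ^ 2 := Subtype.ext heP
    have h' := congrArg e.symm h
    rw [map_pow, map_add, map_mul, map_pow, hff, hek] at h'
    exact h'
  · have h : (⟨eQ ρ, mQ⟩ : LL ρ) ^ 2 = ⟨eu, mu⟩ * hh ⟨eu, mu⟩ ρ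
      + aa ⟨ex, mx⟩ * ⟨es ρ, ms⟩ ^ 2 := Subtype.ext heQ
    have h' := congrArg e.symm h
    rw [map_pow, map_add, map_mul, map_mul, map_pow, haa, hhh] at h'
    exact h'
  · intro h
    rw [← hek, ← map_pow] at h
    have h' := e.symm.injective h
    exact hyk (congrArg Subtype.val h')
  · intro i j hij
    obtain ⟨V, hV2, hVinf, hV⟩ := hlval ρ hρ i j hij
    refine ⟨V.comap (e : L' →+* LL ρ), ?_, comap_equiv_infinite e V hVinf, ?_⟩
    · rw [comap_equiv_val e V two_ne_zero, map_ofNat]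
      exact hV2
    · intro b h0 h1 h2 h3
      have hI : Indep4 V (fun i => Units.map (e : L' →* LL ρ) (b i)) := by
        refine hV _ ?_ ?_ ?_ ?_
        · change ((e (b 0) : LL ρ) : E6) = eu
          rw [h0, e.apply_symm_apply]
        · change ((e (b 1) : LL ρ) : E6) = aa ex
          rw [h1, ← haa, e.apply_symm_apply]
          rfl
        · change ((e (b 2) : LL ρ) : E6) = ey
          rw [h2, e.apply_symm_apply]
        · change ((e (b 3) : LL ρ) : E6) = _
          rw [h3, map_mul, map_sub, map_sub, e.apply_symm_apply, he, he]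
          rfl
      intro ε hε x hx hone
      have hb0 : ∀ i, (b i : L') ≠ 0 := fun i => (b i).ne_zero
      have hne : (∏ i, (b i : L') ^ (ε i : ℕ)) * x ^ 2 ≠ 0 := by
        refine mul_ne_zero (Finset.prod_ne_zero_iff.2 fun i _ => pow_ne_zero _ (hb0 i)) ?_
        exact pow_ne_zero _ hx
      rw [comap_equiv_val e V hne] at hone
      refine hI ε hε (e x) (by simpa using hx) ?_
      rw [map_mul, map_prod, map_pow] at hone
      simp only [map_pow] at hone
      exact hone

/-- Assembly of the final statement. -/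
theorem exists_rationallyConnected (hseq : S_SEQ) (habs : S_ABSU) (hsym : S_SYM4) (hpl : S_PLACE)
    (hnv : S_NV) (heqn : S_EQN) (hind : S_IND) (hlval : S_LVAL) :
    ∃ (A : Type) (_ : CommRing A) (_ : IsDomain A) (_ : Algebra ℂ A),
      Algebra.FiniteType ℂ A ∧
      (∃ f : A →ₐ[ℂ] FractionRing (MvPolynomial (Fin 6) ℂ), Function.Injective f) ∧
      RationallyConnected A ∧
      Algebra.trdeg ℂ (FractionRing A) = 6 ∧
      Infinite (unramified (FractionRing A) 2 4) := by
  obtain ⟨ρ, hρ⟩ := exists_transcendental_rho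
  have hρ0 : ρ ≠ 0 := by
    rintro rfl
    exact hρ isAlgebraic_zero
  exact ⟨AA ρ, inferInstance, inferInstance, inferInstance, AA_finiteType ρ,
    ⟨(AA ρ).val, Subtype.val_injective⟩, AA_rationallyConnected ρ, AA_trdeg hind hρ0,
    final_of hseq habs hsym hpl hnv heqn hlval hρ (FractionRing (AA ρ))
      (fracEquiv ρ).toRingEquiv (fracEquiv ρ).commutes⟩

end UnrCoh
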